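import Pool.Graph.R_pool_sql_team_seeded_707910d6.T2H70.WI.Key

set_option autoImplicit false

open Complex Polynomial Metric Set Real MeasureTheory Filter Topology
open scoped ENNReal

namespace Pool.Agent.KS6_89.OM
open Pool.Agent.T2H70.WI

variable {h : ℝ} (d : Sq h)

/-- the logarithm of the extremal function -/
noncomputable def LL (z : ℂ) : ℂ := d.L (fun _ => 1) z

noncomputable def PP (k : ℕ) (z : ℂ) : ℂ := d.P (fun _ => 1) k z

/-- the function for the exponent `p` -/
noncomputable def fp (p : ℝ) (z : ℂ) : ℂ := Complex.exp (LL d z / p)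

lemma abs_one_le : ∀ _i : ℕ, |(1 : ℝ)| ≤ 1 := fun _ => by norm_num

lemma LL_diff : DifferentiableOn ℂ (LL d) (ball 0 1) := d.L_diff _ abs_one_le

lemma fp_diff (p : ℝ) : DifferentiableOn ℂ (fp d p) (ball 0 1) := by
  unfold fp
  exact ((LL_diff d).div_const _).cexp

lemma fp_zero (p : ℝ) : fp d p 0 = 1 := by
  unfold fp LL; rw [d.L_zero, zero_div, Complex.exp_zero]

lemma norm_fp_rpow (p s : ℝ) (z : ℂ) :
    ‖fp d p z‖ ^ s = Real.exp (s / p * (LL d z).re) := by
  unfold fp
  rw [Complex.norm_exp, ← Real.exp_mul, Complex.div_ofReal_re]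
  congr 1
  ring

lemma LL_re_le (j : ℕ) (z : ℂ) (hz : ‖z‖ ≤ rad j) : (LL d z).re ≤ d.H j + 1 := by
  have h1 := d.L_upper (fun _ => 1) (by intro; norm_num) (by intro; norm_num) 0
    (by intro i j; simp) j z hz
  unfold LL
  linarith

lemma mass_one (j : ℕ) : d.mass 1 j = (4 / 5) ^ j * Real.exp (-d.H j) := by
  unfold Sq.mass; rw [one_mul]

lemma mem_bound (p : ℝ) (hp : 0 < p) (j : ℕ) (z : ℂ) (hz : ‖z‖ ≤ rad j) :
    d.mass 1 j * ‖fp d p z‖ ^ p ≤ Real.exp 1 * (4 / 5) ^ j := by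
  rw [norm_fp_rpow, mass_one, div_self hp.ne', one_mul, mul_assoc, ← Real.exp_add, mul_comm]
  have := LL_re_le d j z hz
  apply mul_le_mul_of_nonneg_right _ (by positivity)
  apply Real.exp_le_exp.2
  linarith

/-- the heights beat the earlier sizes -/
lemma exists_const (s : ℝ) (hs : s < 1) :
    ∃ C : ℝ, 0 ≤ C ∧ ∀ j, s * (d.H j + 1 + d.K j) ≤ d.H j + C := by
  -- for large `j` the inequality holds with `C = 0`
  obtain ⟨J, hJ⟩ := exists_nat_gt (s / (1 - s))
  have h1 : 0 < 1 - s := by linarith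
  have hlarge : ∀ j, J ≤ j → s * (d.H j + 1 + d.K j) ≤ d.H j := by
    intro j hj
    have e1 := (d.H_ge j).2.2
    have e2 := d.K_nonneg j
    have e3 : (J : ℝ) ≤ j := by exact_mod_cast hj
    have e4 : s ≤ (1 - s) * (j + 1) := by
      rw [div_lt_iff₀ h1] at hJ
      nlinarith
    have e5 : s * (1 + d.K j) ≤ (1 - s) * d.H j := by
      calc s * (1 + d.K j) ≤ ((1 - s) * (j + 1)) * (1 + d.K j) :=
            mul_le_mul_of_nonneg_right e4 (by linarith)
        _ = (1 - s) * ((j + 1) * (1 + d.K j)) := by ring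
        _ ≤ (1 - s) * d.H j := by
          apply mul_le_mul_of_nonneg_left _ h1.le
          have hj0 : (0 : ℝ) ≤ j := Nat.cast_nonneg j
          nlinarith
    nlinarith
  refine ⟨∑ j ∈ Finset.range J, |s * (d.H j + 1 + d.K j) - d.H j|,
    Finset.sum_nonneg fun _ _ => abs_nonneg _, fun j => ?_⟩
  by_cases hj : J ≤ j
  · have := hlarge j hj
    have h2 : 0 ≤ ∑ j ∈ Finset.range J, |s * (d.H j + 1 + d.K j) - d.H j| :=
      Finset.sum_nonneg fun _ _ => abs_nonneg _
    linarith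
  · have h2 : |s * (d.H j + 1 + d.K j) - d.H j|
        ≤ ∑ j ∈ Finset.range J, |s * (d.H j + 1 + d.K j) - d.H j| :=
      Finset.single_le_sum (f := fun j => |s * (d.H j + 1 + d.K j) - d.H j|)
        (fun _ _ => abs_nonneg _) (Finset.mem_range.2 (by omega))
    have h3 := le_abs_self (s * (d.H j + 1 + d.K j) - d.H j)
    linarith

lemma frac_bound (p q : ℝ) (hp : 0 < p) (hq : 0 < q) (hqp : q < p) (j : ℕ) (z : ℂ)
    (hz : ‖z‖ ≤ rad j) :
    d.mass 1 j * ‖fp d p z‖ ^ q ≤ Real.exp 1 * (4 / 5) ^ j := by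
  rw [norm_fp_rpow, mass_one, mul_assoc, ← Real.exp_add, mul_comm]
  have h1 := LL_re_le d j z hz
  have h2 : q / p ≤ 1 := by rw [div_le_one hp]; exact hqp.le
  have h3 : 0 < q / p := by positivity
  have h4 := d.H_pos j
  apply mul_le_mul_of_nonneg_right _ (by positivity)
  apply Real.exp_le_exp.2
  have h5 : q / p * (LL d z).re ≤ q / p * (d.H j + 1) := mul_le_mul_of_nonneg_left h1 h3.le
  have h6 : q / p * (d.H j + 1) ≤ 1 * (d.H j + 1) := mul_le_mul_of_nonneg_right h2 (by linarith)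
  linarith

lemma exp_neg_PP_mul (p : ℝ) (k : ℕ) (z : ℂ) :
    Complex.exp (-(PP d k z / p)) * fp d p z = Complex.exp ((LL d z - PP d k z) / p) := by
  unfold fp
  rw [← Complex.exp_add]
  congr 1
  ring

lemma tail_bound' (p q C : ℝ) (hp : 0 < p) (hq : 0 < q) 
    (hC : ∀ j, q / p * (d.H j + 1 + d.K j) ≤ d.H j + C) (j k : ℕ) (hkj : k ≤ j) (z : ℂ)
    (hz : ‖z‖ ≤ rad j) :
    d.mass 1 j * ‖Complex.exp (-(PP d k z / p)) * fp d p z‖ ^ q ≤ Real.exp C * (4 / 5) ^ j := by
  have e1 := LL_re_le d j z hz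
  have e5 := d.P_bound (fun _ => 1) 1 (fun i => by norm_num) k z (hz.trans (rad_lt_one j).le)
  have e6 := (abs_le.1 (Complex.abs_re_le_norm (d.P (fun _ => 1) k z))).1
  have e7 := d.K_mono hkj
  rw [exp_neg_PP_mul, Complex.norm_exp, ← Real.exp_mul, mass_one, mul_assoc, ← Real.exp_add,
    mul_comm]
  apply mul_le_mul_of_nonneg_right _ (by positivity)
  apply Real.exp_le_exp.2
  rw [Complex.div_ofReal_re, Complex.sub_re]
  have e8 : ((LL d z).re - (PP d k z).re) / p * q = q / p * ((LL d z).re - (PP d k z).re) := by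
    ring
  rw [e8]
  have e9 : (LL d z).re - (PP d k z).re ≤ d.H j + 1 + d.K j := by
    unfold PP
    linarith
  have e10 := hC j
  have e11 : q / p * ((LL d z).re - (PP d k z).re) ≤ q / p * (d.H j + 1 + d.K j) :=
    mul_le_mul_of_nonneg_left e9 (by positivity)
  linarith

lemma near_one' (p : ℝ) (hp : 0 < p) (j k : ℕ) (hjk : j < k) (z : ℂ) (hz : ‖z‖ ≤ rad j) :
    ‖Complex.exp (-(PP d k z / p)) * fp d p z - 1‖ ≤ (1 / p * Real.exp (1 / p)) * (1 / 2) ^ k := by
  have e1 := d.tail_bound (fun _ => 1) abs_one_le hjk hz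
  rw [exp_neg_PP_mul]
  set x := (LL d z - PP d k z) / p with hx
  have hxn : ‖x‖ ≤ 1 / p * (1 / 2) ^ k := by
    rw [hx, norm_div, Complex.norm_real, Real.norm_eq_abs, abs_of_pos hp, div_le_iff₀ hp]
    have : (1 / 2 : ℝ) ^ (k + 1) ≤ (1 / 2) ^ k := pow_le_pow_of_le_one (by norm_num) (by norm_num)
      (by omega)
    have e2 : 1 / p * (1 / 2 : ℝ) ^ k * p = (1 / 2) ^ k := by field_simp
    rw [e2]
    exact e1.trans this
  have hx1 : ‖x‖ ≤ 1 / p := by
    refine hxn.trans ?_
    have : (1 / 2 : ℝ) ^ k ≤ 1 := pow_le_one₀ (by norm_num) (by norm_num)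
    have h2 : 0 < 1 / p := by positivity
    nlinarith
  have e3 := Complex.norm_exp_sub_sum_le_norm_mul_exp x 1
  simp only [Finset.sum_range_one, pow_zero, Nat.factorial_zero, Nat.cast_one, div_one,
    pow_one] at e3
  calc ‖Complex.exp x - 1‖ ≤ ‖x‖ * Real.exp ‖x‖ := e3
    _ ≤ (1 / p * (1 / 2) ^ k) * Real.exp (1 / p) := by
        apply mul_le_mul hxn (Real.exp_le_exp.2 hx1) (Real.exp_pos _).le (by positivity)
    _ = _ := by ring

lemma tail_sum1 (a : ℝ) (k : ℕ) : HasSum (fun j : ℕ => if k ≤ j then a * ((4 : ℝ) / 5) ^ j else 0)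
    (a * (5 * (4 / 5) ^ k)) := by
  have h1 := (Sq.tail_sum k).mul_left (a / 2)
  have e : a / 2 * (10 * (4 / 5 : ℝ) ^ k) = a * (5 * (4 / 5) ^ k) := by ring
  rw [e] at h1
  have e2 : (fun j : ℕ => if k ≤ j then a * ((4 : ℝ) / 5) ^ j else 0)
      = fun j : ℕ => a / 2 * (if k ≤ j then 2 * ((4 : ℝ) / 5) ^ j else 0) := by
    funext j
    split_ifs
    · ring
    · ring
  rw [e2]
  exact h1

/-- weak invertibility for the smaller exponents -/
theorem cyclic' (p q : ℝ) (hp : 0 < p) (hq : 0 < q) (hqp : q < p) :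
    ∃ (T : ℕ → ℂ[X]) (b : ℕ → ℕ → ℝ), (∀ k j, 0 ≤ b k j) ∧ (∀ k, Summable (b k)) ∧
      Tendsto (fun k => ∑' j, b k j) atTop (𝓝 0) ∧
      ∀ k j (z : ℂ), ‖z‖ ≤ rad j →
        d.mass 1 j * ‖(T k).eval z * fp d p z - 1‖ ^ q ≤ b k j := by
  obtain ⟨C, hC0, hC⟩ := exists_const d (q / p) (by rw [div_lt_one hp]; exact hqp)
  have hT : ∀ k : ℕ, ∃ T : ℂ[X], ∀ z : ℂ, ‖z‖ ≤ 1 →
      ‖T.eval z - Complex.exp (-(PP d k z / p))‖ ≤ (1 / 2) ^ k := fun k =>
    poly_approx (fun z => Complex.exp (-(PP d k z / p))) 1 2 (by norm_num) (by norm_num)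
      (((d.P_diff (fun _ => 1) k).div_const _).neg.cexp.differentiableOn) _ (by positivity)
  choose T hT using hT
  set D : ℝ := 1 / p * Real.exp (1 / p) with hD
  have hD0 : 0 ≤ D := by positivity
  set A : ℝ := Real.exp 1 + D ^ q with hA
  set B : ℝ := Real.exp C + 1 with hB
  have hA0 : 0 ≤ A := by positivity
  have hB0 : 0 ≤ B := by positivity
  have hsum : ∀ k : ℕ, HasSum (fun j : ℕ => 3 ^ q * (A * ((1 / 2) ^ k) ^ q * ((4 : ℝ) / 5) ^ j
      + (if k ≤ j then B * ((4 : ℝ) / 5) ^ j else 0)))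
      (3 ^ q * (A * ((1 / 2) ^ k) ^ q * 5 + B * (5 * (4 / 5) ^ k))) := by
    intro k
    exact ((Sq.geo.mul_left _).add (tail_sum1 B k)).mul_left _
  refine ⟨T, fun k j => 3 ^ q * (A * ((1 / 2) ^ k) ^ q * ((4 : ℝ) / 5) ^ j
      + (if k ≤ j then B * ((4 : ℝ) / 5) ^ j else 0)), ?_, fun k => (hsum k).summable, ?_, ?_⟩
  · intro k j
    have : (0 : ℝ) ≤ (if k ≤ j then B * ((4 : ℝ) / 5) ^ j else 0) := by split_ifs <;> positivity
    positivity
  · have e1 : (fun k : ℕ => ∑' j : ℕ, 3 ^ q * (A * ((1 / 2) ^ k) ^ q * ((4 : ℝ) / 5) ^ j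
      + (if k ≤ j then B * ((4 : ℝ) / 5) ^ j else 0)))
      = fun k : ℕ => (3 ^ q * (A * (((1 / 2 : ℝ)) ^ q) ^ k * 5 + B * (5 * (4 / 5) ^ k))) := by
      funext k
      rw [(hsum k).tsum_eq]
      congr 4
      rw [← Real.rpow_natCast, ← Real.rpow_mul (by norm_num), mul_comm,
        Real.rpow_mul (by norm_num), Real.rpow_natCast]
    rw [e1]
    have t1 : Tendsto (fun k : ℕ => (((1 / 2 : ℝ)) ^ q) ^ k) atTop (𝓝 0) :=
      tendsto_pow_atTop_nhds_zero_of_lt_one (by positivity)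
        (Real.rpow_lt_one (by norm_num) (by norm_num) hq)
    have t2 : Tendsto (fun k : ℕ => ((4 / 5 : ℝ)) ^ k) atTop (𝓝 0) :=
      tendsto_pow_atTop_nhds_zero_of_lt_one (by norm_num) (by norm_num)
    have t3 := (((t1.const_mul A).mul_const 5).add ((t2.const_mul 5).const_mul B)).const_mul
      ((3 : ℝ) ^ q)
    simpa using t3
  · intro k j z hz
    have hz1 : ‖z‖ ≤ 1 := hz.trans (rad_lt_one j).le
    have hm := (d.mass_pos 1 j).le
    have a1 : ‖(T k).eval z * fp d p z - 1‖ ≤ (1 / 2) ^ k * ‖fp d p z‖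
        + ‖Complex.exp (-(PP d k z / p)) * fp d p z - 1‖ := by
      have : (T k).eval z * fp d p z - 1 = ((T k).eval z - Complex.exp (-(PP d k z / p)))
        * fp d p z + (Complex.exp (-(PP d k z / p)) * fp d p z - 1) := by ring
      rw [this]
      refine (norm_add_le _ _).trans ?_
      rw [norm_mul]
      have := hT k z hz1
      gcongr
    have a2 : d.mass 1 j * ((1 / 2 : ℝ) ^ k * ‖fp d p z‖) ^ q
        ≤ Real.exp 1 * ((1 / 2) ^ k) ^ q * (4 / 5) ^ j := by
      rw [Real.mul_rpow (by positivity) (norm_nonneg _)]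
      have := frac_bound d p q hp hq hqp j z hz
      have h5 : (0 : ℝ) ≤ ((1 / 2 : ℝ) ^ k) ^ q := by positivity
      calc d.mass 1 j * (((1 / 2 : ℝ) ^ k) ^ q * ‖fp d p z‖ ^ q)
          = ((1 / 2 : ℝ) ^ k) ^ q * (d.mass 1 j * ‖fp d p z‖ ^ q) := by ring
        _ ≤ ((1 / 2 : ℝ) ^ k) ^ q * (Real.exp 1 * (4 / 5) ^ j) :=
            mul_le_mul_of_nonneg_left this h5
        _ = _ := by ring
    have hm' := d.mass_le' 1 one_pos j
    have hDq : 0 ≤ D ^ q := by positivity
    have h2k : (0 : ℝ) ≤ ((1 / 2 : ℝ) ^ k) ^ q * (4 / 5) ^ j := by positivity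
    have h3q : (0 : ℝ) ≤ 3 ^ q := by positivity
    by_cases hkj : k ≤ j
    · simp only [if_pos hkj]
      have a3 : ‖Complex.exp (-(PP d k z / p)) * fp d p z - 1‖
          ≤ ‖Complex.exp (-(PP d k z / p)) * fp d p z‖ + 1 := by
        refine (norm_sub_le _ _).trans ?_
        rw [norm_one]
      have a4 : ‖(T k).eval z * fp d p z - 1‖ ^ q ≤ 3 ^ q * (((1 / 2) ^ k * ‖fp d p z‖) ^ q
          + ‖Complex.exp (-(PP d k z / p)) * fp d p z‖ ^ q + 1 ^ q) := by
        refine le_trans ?_ (add3_rpow_le hq (by positivity) (norm_nonneg _) zero_le_one)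
        apply Real.rpow_le_rpow (norm_nonneg _) _ hq.le
        linarith
      have a5 := tail_bound' d p q C hp hq hC j k hkj z hz
      rw [Real.one_rpow] at a4
      calc _ ≤ d.mass 1 j * (3 ^ q * (((1 / 2) ^ k * ‖fp d p z‖) ^ q
          + ‖Complex.exp (-(PP d k z / p)) * fp d p z‖ ^ q + 1)) := by gcongr
        _ = 3 ^ q * (d.mass 1 j * ((1 / 2) ^ k * ‖fp d p z‖) ^ q
          + d.mass 1 j * ‖Complex.exp (-(PP d k z / p)) * fp d p z‖ ^ q + d.mass 1 j) := by ring
        _ ≤ _ := by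
          apply mul_le_mul_of_nonneg_left _ h3q
          rw [hA, hB]
          nlinarith
    · simp only [if_neg hkj]
      have a3 := near_one' d p hp j k (by omega) z hz
      rw [← hD] at a3
      have a4 : ‖(T k).eval z * fp d p z - 1‖ ^ q ≤ 3 ^ q * (((1 / 2) ^ k * ‖fp d p z‖) ^ q
          + (D * (1 / 2) ^ k) ^ q + 0 ^ q) := by
        refine le_trans ?_ (add3_rpow_le hq (by positivity) (by positivity) le_rfl)
        apply Real.rpow_le_rpow (norm_nonneg _) _ hq.le
        linarith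
      rw [Real.zero_rpow hq.ne'] at a4
      have a6 : d.mass 1 j * (D * (1 / 2 : ℝ) ^ k) ^ q
          ≤ D ^ q * ((1 / 2 : ℝ) ^ k) ^ q * (4 / 5) ^ j := by
        rw [Real.mul_rpow hD0 (by positivity), mul_comm]
        apply mul_le_mul_of_nonneg_left hm' (by positivity)
      calc _ ≤ d.mass 1 j * (3 ^ q * (((1 / 2) ^ k * ‖fp d p z‖) ^ q
          + (D * (1 / 2) ^ k) ^ q + 0)) := by gcongr
        _ = 3 ^ q * (d.mass 1 j * ((1 / 2) ^ k * ‖fp d p z‖) ^ q
          + d.mass 1 j * (D * (1 / 2) ^ k) ^ q) := by ring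
        _ ≤ _ := by
          apply mul_le_mul_of_nonneg_left _ h3q
          rw [hA]
          linarith

/-! ### the lower bound -/

lemma one_step' (p : ℝ) (hp : 0 < p) (q : ℂ[X]) (j : ℕ) :
    Real.circleAverage (fun z => ‖q.eval z‖ ^ p) 0 (rad j) ≤
      Real.exp (-(d.H j - 2)) *
        Real.circleAverage (fun z => ‖q.eval z * fp d p z‖ ^ p) 0 (rad j)
      + (3 / 4) * Real.circleAverage (fun z => ‖q.eval z‖ ^ p) 0 (rad (j + 1)) := by
  have hgc : ContinuousOn (fun z => ‖q.eval z * fp d p z‖ ^ p) (ball 0 1) := by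
    apply ContinuousOn.rpow_const _ (fun _ _ => Or.inr hp.le)
    apply ContinuousOn.norm
    apply ContinuousOn.mul q.continuous.continuousOn
    exact (fp_diff d p).continuousOn
  have hi1 := Sq.circ_int (hgc) j
  have hqc : ContinuousOn (fun z : ℂ => ‖q.eval z‖ ^ p) (ball 0 1) :=
    (Sq.int_q q p hp).continuousOn
  have hi2 := Sq.circ_int hqc j
  have hwc : ContinuousOn (fun z : ℂ => (1 - ((z / rad j) ^ (d.N j)).re) * ‖q.eval z‖ ^ p)
      (ball 0 1) := by
    apply Continuous.continuousOn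
    apply Continuous.mul _ (Sq.int_q q p hp)
    fun_prop
  have hi3 := Sq.circ_int hwc j
  have hsw := sweep q p hp (rad_pos j) (rad_lt_succ j) (d.N j)
  have h8 := (d.rel j).2.2.2.2.2.1
  have hnn : 0 ≤ Real.circleAverage (fun z : ℂ => ‖q.eval z‖ ^ p) 0 (rad (j + 1)) := by
    apply Real.circleAverage_nonneg_of_nonneg
    intro z _
    positivity
  have key : Real.circleAverage (fun z => ‖q.eval z‖ ^ p) 0 (rad j) ≤
      Real.circleAverage (fun z => Real.exp (-(d.H j - 2)) • ‖q.eval z * fp d p z‖ ^ p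
        + (2 / 3 : ℝ) • ((1 - ((z / rad j) ^ (d.N j)).re) * ‖q.eval z‖ ^ p)) 0 (rad j) := by
    apply Real.circleAverage_mono hi2
    · exact (hi1.const_smul).add (hi3.const_smul)
    · intro z hz
      have hz' : ‖z‖ = rad j := by simpa [abs_of_pos (rad_pos j)] using hz
      have hw : ‖(z / rad j) ^ (d.N j)‖ = 1 := by
        rw [norm_pow, norm_div, hz', Complex.norm_real, Real.norm_eq_abs, abs_of_pos (rad_pos j),
          div_self (rad_pos j).ne', one_pow]
      have hre := Complex.re_le_norm ((z / rad j) ^ (d.N j))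
      rw [hw] at hre
      have hq0 : (0 : ℝ) ≤ ‖q.eval z‖ ^ p := by positivity
      simp only [smul_eq_mul]
      by_cases hb : -(1 / 2) ≤ ((z / rad j) ^ (d.N j)).re
      · have e1 := d.L_lower (fun _ => 1) (by intro; norm_num) (by intro; norm_num) 0
          (by intro i k; simp) j z hz' hb
        have e2 : ‖q.eval z‖ ^ p ≤ Real.exp (-(d.H j - 2)) * ‖q.eval z * fp d p z‖ ^ p := by
          rw [norm_mul, Real.mul_rpow (norm_nonneg _) (norm_nonneg _), norm_fp_rpow,
            div_self hp.ne', one_mul]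
          have e3 : Real.exp (-(d.H j - 2)) * (‖q.eval z‖ ^ p * Real.exp ((LL d z).re))
            = ‖q.eval z‖ ^ p * Real.exp ((LL d z).re - (d.H j - 2)) := by
            rw [mul_left_comm, ← Real.exp_add]
            ring_nf
          rw [e3]
          have e4 : 1 ≤ Real.exp ((LL d z).re - (d.H j - 2)) := by
            rw [Real.one_le_exp_iff]
            unfold LL
            linarith
          nlinarith
        have e5 : 0 ≤ (1 - ((z / rad j) ^ (d.N j)).re) * ‖q.eval z‖ ^ p :=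
          mul_nonneg (by linarith) hq0
        linarith
      · push Not at hb
        have e1 : 0 ≤ Real.exp (-(d.H j - 2)) * ‖q.eval z * fp d p z‖ ^ p := by
          positivity
        nlinarith
  refine key.trans ?_
  have hi1' : CircleIntegrable (fun z => Real.exp (-(d.H j - 2)) •
      ‖q.eval z * fp d p z‖ ^ p) 0 (rad j) := hi1.const_smul
  have hi3' : CircleIntegrable (fun z : ℂ => (2 / 3 : ℝ) •
      ((1 - ((z / rad j) ^ (d.N j)).re) * ‖q.eval z‖ ^ p)) 0 (rad j) := hi3.const_smul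
  rw [Real.circleAverage_fun_add hi1' hi3', Real.circleAverage_fun_smul,
    Real.circleAverage_fun_smul, smul_eq_mul, smul_eq_mul]
  have e9 : 2 / 3 * Real.circleAverage (fun z : ℂ => (1 - ((z / rad j) ^ (d.N j)).re) * ‖q.eval z‖ ^ p)
      0 (rad j) ≤ (3 / 4) * Real.circleAverage (fun z => ‖q.eval z‖ ^ p) 0 (rad (j + 1)) := by
    have : (1 + (rad j / rad (j + 1)) ^ (d.N j)) *
        Real.circleAverage (fun z : ℂ => ‖q.eval z‖ ^ p) 0 (rad (j + 1))
        ≤ (1 + 1 / 8) * Real.circleAverage (fun z : ℂ => ‖q.eval z‖ ^ p) 0 (rad (j + 1)) := by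
      apply mul_le_mul_of_nonneg_right _ hnn
      linarith
    linarith
  linarith

theorem iterate' (p : ℝ) (hp : 0 < p) (q : ℂ[X]) (J : ℕ) :
    Real.circleAverage (fun z => ‖q.eval z‖ ^ p) 0 (rad 0) ≤
      Real.exp 2 * ∑ j ∈ Finset.range J, d.mass 1 j *
        Real.circleAverage (fun z => ‖q.eval z * fp d p z‖ ^ p) 0 (rad j)
      + (3 / 4) ^ J * Real.circleAverage (fun z => ‖q.eval z‖ ^ p) 0 (rad J) := by
  induction J with
  | zero => simp
  | succ J ih =>
    refine ih.trans ?_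
    rw [Finset.sum_range_succ, mul_add]
    have h1 := one_step' d p hp q J
    have hnn : 0 ≤ Real.circleAverage
        (fun z : ℂ => ‖q.eval z * fp d p z‖ ^ p) 0 (rad J) := by
      apply Real.circleAverage_nonneg_of_nonneg
      intro z _
      positivity
    have h2 : (3 / 4 : ℝ) ^ J * (Real.exp (-(d.H J - 2)) *
        Real.circleAverage (fun z => ‖q.eval z * fp d p z‖ ^ p) 0 (rad J))
        ≤ Real.exp 2 * (d.mass 1 J *
        Real.circleAverage (fun z => ‖q.eval z * fp d p z‖ ^ p) 0 (rad J)) := by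
      rw [← mul_assoc, ← mul_assoc]
      apply mul_le_mul_of_nonneg_right _ hnn
      rw [mass_one]
      have e1 : Real.exp (-(d.H J - 2)) = Real.exp 2 * Real.exp (-d.H J) := by
        rw [← Real.exp_add]; ring_nf
      rw [e1]
      have e2 : (3 / 4 : ℝ) ^ J ≤ (4 / 5) ^ J := pow_le_pow_left₀ (by norm_num) (by norm_num) J
      have e3 : 0 ≤ Real.exp 2 * Real.exp (-d.H J) := by positivity
      nlinarith
    have h3 : (3 / 4 : ℝ) ^ (J + 1) * Real.circleAverage (fun z : ℂ => ‖q.eval z‖ ^ p) 0 (rad (J + 1))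
        = (3 / 4 : ℝ) ^ J * ((3 / 4) *
          Real.circleAverage (fun z : ℂ => ‖q.eval z‖ ^ p) 0 (rad (J + 1))) := by
      rw [pow_succ]; ring
    rw [h3]
    have h4 : (0 : ℝ) < (3 / 4) ^ J := by positivity
    nlinarith

theorem noncyclic' (p : ℝ) (hp : 0 < p) (q : ℂ[X]) (M : ℝ)
    (hM : ∀ J, ∑ j ∈ Finset.range J, d.mass 1 j *
        Real.circleAverage (fun z => ‖q.eval z * fp d p z‖ ^ p) 0 (rad j) ≤ M) :
    ‖q.eval 0‖ ^ p ≤ Real.exp 2 * M := by
  refine (submean q p hp (rad_pos 0)).trans ?_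
  obtain ⟨B, hB0, hB⟩ := poly_bound q
  have h1 : ∀ J, Real.circleAverage (fun z => ‖q.eval z‖ ^ p) 0 (rad J) ≤ B ^ p := by
    intro J
    apply Real.circleAverage_mono_on_of_le_circle
    · exact Sq.circ_int (Sq.int_q q p hp).continuousOn J
    · intro z hz
      have hz' : ‖z‖ = rad J := by simpa [abs_of_pos (rad_pos J)] using hz
      apply Real.rpow_le_rpow (norm_nonneg _) _ hp.le
      exact hB z (by rw [hz']; exact (rad_lt_one J).le)
  have h2 : ∀ J, Real.circleAverage (fun z => ‖q.eval z‖ ^ p) 0 (rad 0)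
      ≤ Real.exp 2 * M + (3 / 4) ^ J * B ^ p := by
    intro J
    refine (iterate' d p hp q J).trans ?_
    have := hM J
    have := h1 J
    gcongr
  have h3 : Tendsto (fun J : ℕ => Real.exp 2 * M + (3 / 4 : ℝ) ^ J * B ^ p) atTop
      (𝓝 (Real.exp 2 * M + 0 * B ^ p)) := by
    apply Tendsto.const_add
    apply Tendsto.mul_const
    exact tendsto_pow_atTop_nhds_zero_of_lt_one (by norm_num) (by norm_num)
  rw [zero_mul, add_zero] at h3
  exact ge_of_tendsto' h3 h2

/-- `(a+b)^p ≤ e b^p + (1+p)^p a^p` -/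
lemma add_rpow_le' {p a b : ℝ} (hp : 0 < p) (ha : 0 ≤ a) (hb : 0 ≤ b) :
    (a + b) ^ p ≤ Real.exp 1 * b ^ p + (1 + p) ^ p * a ^ p := by
  have h1 : 0 ≤ (1 + p) ^ p * a ^ p := by positivity
  have h2 : 0 ≤ Real.exp 1 * b ^ p := by positivity
  rcases le_total (p * a) b with hab | hab
  · have e1 : a + b ≤ (1 + 1 / p) * b := by
      have : a ≤ 1 / p * b := by
        rw [one_div, inv_mul_eq_div, le_div_iff₀ hp, mul_comm]; exact hab
      linarith
    have e2 : (a + b) ^ p ≤ ((1 + 1 / p) * b) ^ p := Real.rpow_le_rpow (by linarith) e1 hp.le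
    rw [Real.mul_rpow (by positivity) hb] at e2
    have e3 : (1 + 1 / p) ^ p ≤ Real.exp 1 := by
      have e4 : 1 + 1 / p ≤ Real.exp (1 / p) := by
        have := Real.add_one_le_exp (1 / p); linarith
      calc (1 + 1 / p) ^ p ≤ (Real.exp (1 / p)) ^ p := Real.rpow_le_rpow (by positivity) e4 hp.le
        _ = Real.exp 1 := by rw [← Real.exp_mul]; congr 1; field_simp
    have e5 : (1 + 1 / p) ^ p * b ^ p ≤ Real.exp 1 * b ^ p :=
      mul_le_mul_of_nonneg_right e3 (by positivity)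
    linarith
  · have e1 : a + b ≤ (1 + p) * a := by linarith
    have e2 : (a + b) ^ p ≤ ((1 + p) * a) ^ p := Real.rpow_le_rpow (by linarith) e1 hp.le
    rw [Real.mul_rpow (by positivity) ha] at e2
    linarith

theorem key_lower' (d : Sq 10) (p : ℝ) (hp : 0 < p) :
    ∃ ε : ℝ, 0 < ε ∧ ∀ q : ℂ[X], ∃ J : ℕ, ε ≤ ∑ j ∈ Finset.range J, d.mass 1 j *
      Real.circleAverage (fun z => ‖q.eval z * fp d p z - 1‖ ^ p) 0 (rad j) := by
  set E : ℝ := (1 + p) ^ p with hE
  have hE0 : 0 < E := by rw [hE]; positivity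
  set C : ℝ := Real.exp 3 * E + E / d.mass 1 0 with hC
  have hm0 := d.mass_pos 1 0
  have hCpos : 0 < C := by rw [hC]; positivity
  refine ⟨1 / (7 * C), by positivity, fun q => ?_⟩
  by_contra hcon
  push Not at hcon
  set ε := 1 / (7 * C) with hε
  have hε0 : 0 < ε := by rw [hε]; positivity
  have hdiff : DifferentiableOn ℂ (fun z => q.eval z * fp d p z - 1) (ball 0 1) := by
    apply DifferentiableOn.sub_const
    apply DifferentiableOn.mul q.differentiable.differentiableOn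
    exact fp_diff d p
  have hc1 : ContinuousOn (fun z => ‖q.eval z * fp d p z - 1‖ ^ p) (ball 0 1) :=
    ContinuousOn.rpow_const hdiff.continuousOn.norm (fun _ _ => Or.inr hp.le)
  have hc2 : ContinuousOn (fun z => ‖q.eval z * fp d p z‖ ^ p) (ball 0 1) := by
    apply ContinuousOn.rpow_const _ (fun _ _ => Or.inr hp.le)
    apply ContinuousOn.norm
    apply ContinuousOn.mul q.continuous.continuousOn
    exact (fp_diff d p).continuousOn
  -- value at the origin
  have h1 : ‖q.eval 0 - 1‖ ^ p ≤ ε / d.mass 1 0 := by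
    have a1 := submean_analytic (fun z => q.eval z * fp d p z - 1) p (rad 0) 1 hp
      (rad_pos 0) (rad_lt_one 0) hdiff
    simp only [fp_zero, mul_one] at a1
    have a2 := hcon 1
    rw [Finset.sum_range_one] at a2
    rw [le_div_iff₀ hm0]
    nlinarith
  -- bound for the weighted mean of q f
  have h2 : ∀ J, ∑ j ∈ Finset.range J, d.mass 1 j *
        Real.circleAverage (fun z => ‖q.eval z * fp d p z‖ ^ p) 0 (rad j)
        ≤ E * ε + Real.exp 1 * (5 * Real.exp (-10)) := by
    intro J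
    have a1 : ∀ j, Real.circleAverage (fun z => ‖q.eval z * fp d p z‖ ^ p) 0 (rad j)
        ≤ E * Real.circleAverage
          (fun z => ‖q.eval z * fp d p z - 1‖ ^ p) 0 (rad j) + Real.exp 1 := by
      intro j
      have hi1 := Sq.circ_int hc1 j
      have hi1s : CircleIntegrable (fun z => E • ‖q.eval z * fp d p z - 1‖ ^ p) 0 (rad j) :=
        hi1.const_smul
      have hi3 : CircleIntegrable (fun z => E • ‖q.eval z * fp d p z - 1‖ ^ p + Real.exp 1)
        0 (rad j) := hi1s.add (circleIntegrable_const _ _ _)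
      have e0 : Real.circleAverage
          (fun z => E • ‖q.eval z * fp d p z - 1‖ ^ p + Real.exp 1) 0 (rad j)
          = E * Real.circleAverage (fun z => ‖q.eval z * fp d p z - 1‖ ^ p) 0 (rad j)
            + Real.exp 1 := by
        rw [Real.circleAverage_fun_add hi1s (circleIntegrable_const _ _ _),
          Real.circleAverage_const, Real.circleAverage_fun_smul, smul_eq_mul]
      rw [← e0]
      apply Real.circleAverage_mono (Sq.circ_int hc2 j) hi3
      intro z _
      have b1 := add_rpow_le' hp (norm_nonneg (q.eval z * fp d p z - 1)) zero_le_one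
      rw [Real.one_rpow, mul_one] at b1
      simp only [smul_eq_mul]
      have b2 : ‖q.eval z * fp d p z‖ ^ p ≤ (‖q.eval z * fp d p z - 1‖ + 1) ^ p := by
        apply Real.rpow_le_rpow (norm_nonneg _) _ hp.le
        calc ‖q.eval z * fp d p z‖ = ‖(q.eval z * fp d p z - 1) + 1‖ := by
              rw [sub_add_cancel]
          _ ≤ _ := norm_add_le _ _
          _ = _ := by rw [norm_one]
      linarith
    have a3 := d.sum_mass_le 1 one_pos J
    rw [one_mul] at a3
    calc ∑ j ∈ Finset.range J, d.mass 1 j *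
        Real.circleAverage (fun z => ‖q.eval z * fp d p z‖ ^ p) 0 (rad j)
        ≤ ∑ j ∈ Finset.range J, d.mass 1 j * (E * Real.circleAverage
          (fun z => ‖q.eval z * fp d p z - 1‖ ^ p) 0 (rad j) + Real.exp 1) :=
          Finset.sum_le_sum fun j _ => mul_le_mul_of_nonneg_left (a1 j) (d.mass_pos 1 j).le
      _ = E * (∑ j ∈ Finset.range J, d.mass 1 j * Real.circleAverage
          (fun z => ‖q.eval z * fp d p z - 1‖ ^ p) 0 (rad j))
          + Real.exp 1 * ∑ j ∈ Finset.range J, d.mass 1 j := by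
          rw [Finset.mul_sum, Finset.mul_sum, ← Finset.sum_add_distrib]
          apply Finset.sum_congr rfl
          intro j _
          ring
      _ ≤ _ := by
          apply add_le_add
          · exact mul_le_mul_of_nonneg_left (hcon J).le hE0.le
          · exact mul_le_mul_of_nonneg_left a3 (Real.exp_pos _).le
  have h3 := noncyclic' d p hp q _ h2
  have h4 : (1 : ℝ) ≤ Real.exp 1 * ‖q.eval 0‖ ^ p + E * ‖q.eval 0 - 1‖ ^ p := by
    have b1 := add_rpow_le' hp (norm_nonneg (q.eval 0 - 1)) (norm_nonneg (q.eval 0))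
    refine le_trans ?_ b1
    apply Real.one_le_rpow _ hp.le
    calc (1 : ℝ) = ‖q.eval 0 - (q.eval 0 - 1)‖ := by rw [sub_sub_cancel, norm_one]
      _ ≤ ‖q.eval 0‖ + ‖q.eval 0 - 1‖ := norm_sub_le _ _
      _ = _ := add_comm _ _
  have h6 : Real.exp 3 * (Real.exp 1 * (5 * Real.exp (-10))) ≤ 5 / 7 := by
    have e1 : Real.exp 3 * (Real.exp 1 * (5 * Real.exp (-10))) = 5 * Real.exp (-6) := by
      have : Real.exp (-6) = Real.exp 3 * Real.exp 1 * Real.exp (-10) := by
        rw [← Real.exp_add, ← Real.exp_add]; norm_num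
      rw [this]; ring
    rw [e1]
    have e4 : Real.exp (-6) ≤ 1 / 7 := by
      rw [Real.exp_neg, ← one_div]
      apply one_div_le_one_div_of_le (by norm_num)
      have := Real.add_one_le_exp (6 : ℝ)
      linarith
    linarith
  have h7 : C * ε = 1 / 7 := by rw [hε]; field_simp
  have h8 : Real.exp 1 * ‖q.eval 0‖ ^ p + E * ‖q.eval 0 - 1‖ ^ p ≤
      Real.exp 3 * (Real.exp 1 * (5 * Real.exp (-10))) + C * ε := by
    have e1 : Real.exp 1 * Real.exp 2 = Real.exp 3 := by rw [← Real.exp_add]; norm_num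
    calc Real.exp 1 * ‖q.eval 0‖ ^ p + E * ‖q.eval 0 - 1‖ ^ p
        ≤ Real.exp 1 * (Real.exp 2 * (E * ε + Real.exp 1 * (5 * Real.exp (-10))))
          + E * (ε / d.mass 1 0) := by
          apply add_le_add
          · exact mul_le_mul_of_nonneg_left h3 (Real.exp_pos _).le
          · exact mul_le_mul_of_nonneg_left h1 hE0.le
      _ = (Real.exp 1 * Real.exp 2) * (Real.exp 1 * (5 * Real.exp (-10)))
          + ((Real.exp 1 * Real.exp 2) * E + E / d.mass 1 0) * ε := by ring
      _ = _ := by rw [e1, hC]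
  linarith

end Pool.Agent.KS6_89.OM
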