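import Pool.Agent.KS6_89.OM.A1

/-!
# MP_d61770_an: one symmetric measure for which the implication fails for all exponents

There is ONE symmetric measure `μ` and one analytic function `L` on the disc such that for every
real `p > 0` the zero-free function `f = exp (L / p)` belongs to `E^p(μ)`, is weakly invertible in
`E^q(μ)` for every `0 < q < p`, and is not weakly invertible in `E^p(μ)`.
-/

set_option autoImplicit false

open Complex Polynomial Metric Set Real MeasureTheory Filter Topology
open scoped ENNReal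
open Pool.Agent.T2H70.WI

namespace Pool.Agent.Results.MP_d61770_an.OneMeasureAllExponents

open Pool.Agent.KS6_89.OM

theorem result :
    ∃ ν : Measure ℝ, IsRadialPart ν ∧ ∃ L : ℂ → ℂ, DifferentiableOn ℂ L (ball 0 1) ∧
      ∀ p : ℝ, 0 < p →
        MemE (symmMeasure ν) p (fun z => Complex.exp (L z / p)) ∧
        (∀ q : ℝ, 0 < q → q < p →
          WeaklyInvertible (symmMeasure ν) q (fun z => Complex.exp (L z / p))) ∧
        ¬ WeaklyInvertible (symmMeasure ν) p (fun z => Complex.exp (L z / p)) := by
  obtain ⟨d⟩ := exists_Sq 10 (by norm_num)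
  refine ⟨d.nu 1, d.nu_radial 1 one_pos, LL d, LL_diff d, fun p hp => ⟨?_, ?_, ?_⟩⟩
  · refine ⟨fp_diff d p, ?_⟩
    refine (d.norm_upper 1 p hp (fp d p) (fun j => Real.exp 1 * (4 / 5) ^ j)
      (fun j => by positivity) (Sq.geo.summable.mul_left _)
      (fun j z hz => mem_bound d p hp j z hz)).trans_lt ?_
    exact ENNReal.rpow_lt_top_of_nonneg (by positivity) ENNReal.ofReal_ne_top
  · intro q hq hqp
    refine ⟨⟨fp_diff d p, ?_⟩, ?_⟩
    · refine (d.norm_upper 1 q hq (fp d p) (fun j => Real.exp 1 * (4 / 5) ^ j)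
        (fun j => by positivity) (Sq.geo.summable.mul_left _)
        (fun j z hz => frac_bound d p q hp hq hqp j z hz)).trans_lt ?_
      exact ENNReal.rpow_lt_top_of_nonneg (by positivity) ENNReal.ofReal_ne_top
    · obtain ⟨T, b, hb0, hbs, hbt, hb⟩ := cyclic' d p q hp hq hqp
      refine ⟨T, ?_⟩
      have hup : ∀ k, normE (symmMeasure (d.nu 1)) q (fun z => (T k).eval z * fp d p z - 1)
          ≤ (ENNReal.ofReal (∑' j, b k j)) ^ (1 / q) := fun k =>
        d.norm_upper 1 q hq _ (b k) (hb0 k) (hbs k) (fun j z hz => hb k j z hz)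
      have hlim : Tendsto (fun k => (ENNReal.ofReal (∑' j, b k j)) ^ (1 / q)) atTop (𝓝 0) := by
        have e1 : Tendsto (fun k => ENNReal.ofReal (∑' j, b k j)) atTop (𝓝 0) := by
          have := ENNReal.tendsto_ofReal hbt
          rwa [ENNReal.ofReal_zero] at this
        have e2 := e1.ennrpow_const (1 / q)
        rwa [ENNReal.zero_rpow_of_pos (by positivity)] at e2
      exact tendsto_of_tendsto_of_tendsto_of_le_of_le tendsto_const_nhds hlim
        (fun _ => bot_le) hup
  · rintro ⟨-, q, hq⟩
    obtain ⟨ε, hε, hlow⟩ := key_lower' d p hp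
    have hbound : ∀ n, ENNReal.ofReal ε ≤ (normE (symmMeasure (d.nu 1)) p
        (fun z => (q n).eval z * fp d p z - 1)) ^ p := by
      intro n
      obtain ⟨J, hJ⟩ := hlow (q n)
      have hd : DifferentiableOn ℂ (fun z => (q n).eval z * fp d p z - 1) (ball 0 1) := by
        apply DifferentiableOn.sub_const
        exact (q n).differentiable.differentiableOn.mul (fp_diff d p)
      exact (ENNReal.ofReal_le_ofReal hJ).trans (d.norm_lower 1 p hp _ hd J)
    have hlim : Tendsto (fun n => (normE (symmMeasure (d.nu 1)) p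
        (fun z => (q n).eval z * fp d p z - 1)) ^ p) atTop (𝓝 0) := by
      have e2 := hq.ennrpow_const p
      rwa [ENNReal.zero_rpow_of_pos hp] at e2
    have := ge_of_tendsto' hlim hbound
    rw [nonpos_iff_eq_zero, ENNReal.ofReal_eq_zero] at this
    linarith

end Pool.Agent.Results.MP_d61770_an.OneMeasureAllExponents
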